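import Pool.Agent.Lib.MP_a322a8_mp.Final

/-!
Every Liouville-type system is Darboux integrable.

The definitions used in the statement are in `Pool/Agent/Lib/MP_a322a8_mp/Defs.lean`.
-/

set_option autoImplicit false

namespace Pool.Agent.Results.MP_a322a8_mp.LiouvilleDarboux

open Pool.Agent.Lib.MP_a322a8_mp

/-- Let `𝕜` be the real or the complex field, and let `F` be analytic at `(x, y, u, u_x, u_y)` for
every jet of the open set `Ω`. If the system `u_xy = F(x, y, u, u_x, u_y)` of `N` equations is of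
Liouville type on `Ω`, then every nonempty open subset of `Ω` contains a nonempty open set on which
the system is Darboux integrable: it has `N` independent `y`-integrals and `N` independent
`x`-integrals there. -/
theorem result {𝕜 : Type*} [RCLike 𝕜] {N : ℕ} (F : Base 𝕜 N → Fin N → 𝕜) (Ω : Set (Jet 𝕜 N))
    (hΩ : IsOpen Ω) (hF : ∀ w ∈ Ω, AnalyticAt 𝕜 F (base w)) (hL : LiouvilleType F Ω) :
    ∀ Ω₁ ⊆ Ω, IsOpen Ω₁ → Ω₁.Nonempty →
      ∃ O ⊆ Ω₁, IsOpen O ∧ O.Nonempty ∧ DarbouxIntegrable F O :=
  fun _ h h' hne => main hΩ hF hL h h' hne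

end Pool.Agent.Results.MP_a322a8_mp.LiouvilleDarboux
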